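import Pool.Agent.U536.CF.Scales
import Pool.Agent.Results.MP_cbe134_nt.MultiplicativeValues

/-!
# The depth graded space at integers with large common factors with the values of arithmetic functions

A pattern in `k` variables is a list of letters `b + u_1 s_1 + ... + u_k s_k`; at a tuple `s` of natural numbers it gives an
index. The first letters may be constant. Let `Λ` be a finite set of admissible patterns of the same weight and of depth at
most `r`. We consider the relations `∑ c_w ζ(w(s)) = 0`, `w ∈ Λ`, with integers `c_w` of absolute value at most `C ^ T`, where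
`T` is the size of `s`: the relations of exponential height between the classes of the values of depth `r` in
`Fil_r / Fil_{r - 1}`.

Let `F_1, …, F_k` be positive multiplicative functions of at most polynomial growth such that `F_i p ≤ M p` for the large
primes `p`, with different values at different large primes; for example Euler's function or the sum of the divisors. Let
`b < 1`, `0 ≤ c < 2 b - 1`, `θ ≥ 0` and `ρ ≤ 1` with `k (1 - ρ + θ) < 1`. For all large `N` and all tuples `m` in `[1, N] ^ k` but at most `N^k exp (-(log N)^c)` of them the following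
holds for EVERY tuple `v` of integers `v_i ≥ exp ((log N)^b)` with `gcd(v_i, F_i(m_i)) ≥ v_i^ρ` and ALL the tuples `s` of natural
numbers with `|s_i - v_i| ≤ v_i ^ θ` in a cone `T ≤ s_i ≤ κ T`: every such relation splits: its part of depth `r` is a
combination `∑ ρ(u, v) (u ⧢ v)` of shuffles of constant indices `u` and patterns `v` whose first letter is not constant, where
for every `v` the number `∑_u ρ(u, v) ζ(u)` is in the span of the values of the same weight and of smaller depth. If the
patterns of depth `r` have at most one constant letter in front then `c_w = 0` for all `w` of depth `r`. The tuples `v` include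
all tuples of large divisors `v_i` of the `F_i(m_i)` and their multiples by small integers; for Euler's function, the tuples of
the orders of elements of the groups of units modulo the `m_i`.

Proof. But for few exceptional `m ≤ N`, the number of `m` with `g ∣ F(m)` is at most `N τ_J(g) / g` up to a factor
`exp ((log N)^s)`, `J = (log N)^a`, `a < s < b`, for all `g`: write `m = k' u` with `u` squarefree and composed of primes larger
than `N^(1/J)`, `k' ≤ exp (4 (log N)^a)`. The exceptional tuples at all scales together with their windows have a power saving,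
and so have the tuples of the large divisors of their coordinates; the inequality `τ_J^q ≤ τ_K` for `K ≥ J^q` with Hölder's
inequality for tuples bounds the sum of `∏ τ_J(g_i) / g_i` over these. The file `MultiplicativeValues` of the starting library
treats the tuples `v = (F_1(m_1), …, F_k(m_k))` only, with `N^k / (log N)^U` exceptions.
-/

set_option autoImplicit false

namespace Pool.Agent.Results.MP_cbe134_nt.CommonFactors

open Pool.Agent.N733.TG (LM lm_totient lm_sigma)
open Pool.Agent.U536.CF (Common common_of_dvd common_order common_scales')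
open Pool.Agent.Results.MP_cbe134_nt.ManyVariables (mzv Letter index AdmissiblePattern Splits exceptional constantPart)
open Pool.Agent.Results.MP_cbe134_nt.MultiplicativeValues (AllSplit allSplit_mono pow_bound)

/-- **The depth graded space at integers with large common factors with the values of arithmetic functions.** Let `Λ` be a finite
set of admissible patterns in `k ≥ 1` variables of the same weight `S` and of depth at most `r`, `κ` a natural number, `C` a real
number, `F_1, ..., F_k` functions with `LM`, `θ ≥ 0`, `ρ ≤ 1`, `k (1 - ρ + θ) < 1`, `b < 1` and `0 ≤ c < 2 b - 1`. For all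
large `N` and all but at most `N^k exp (-(log N)^c)` of the tuples `m` of integers in `[1, N]`: for EVERY tuple `v` of integers
`v_i ≥ exp ((log N)^b)` with `gcd(v_i, F_i(m_i)) ≥ v_i^ρ`, for ALL tuples `s` of natural numbers with `|s_i - v_i| ≤ v_i^θ` and
all `T ≥ 1` with `T ≤ s_i ≤ κ T` for all `i`, every relation `∑ c_w ζ(w(s)) = 0`, `w ∈ Λ`, with integers `c_w` of absolute value
at most `C ^ T` splits, and `c_w = 0` for all `w` of depth `r` if the patterns of depth `r` have at most one constant letter in
front. Euler's function and the sum of the divisors satisfy `LM`. Divisors `v_i ≥ exp ((log N)^b)` of `F_i(m_i)` are such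
integers, and for Euler's function the orders `≥ exp ((log N)^b)` of the units modulo `m_i`. -/
theorem result :
    (∀ {k : ℕ}, 1 ≤ k → ∀ (r : ℕ) (S : Letter k) (Λ : Finset (List (Letter k))), (∀ w ∈ Λ, AdmissiblePattern w) →
      (∀ w ∈ Λ, w.length ≤ r) → (∀ w ∈ Λ, w.sum = S) → ∀ (κ : ℕ) (C : ℝ) (F : Fin k → ℕ → ℕ), (∀ i, LM (F i)) →
      ∀ θ ρ b c : ℝ, 0 ≤ θ → ρ ≤ 1 → k * (1 - ρ + θ) < 1 → b < 1 → 0 ≤ c → c < 2 * b - 1 → ∃ N₀ : ℕ, ∀ N : ℕ, N₀ ≤ N →
      ({m : Fin k → ℕ | (∀ i, 1 ≤ m i ∧ m i ≤ N) ∧ ¬ ∀ v : Fin k → ℕ, (∀ i, Common (F i) b ρ N (m i) (v i)) →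
        ∀ (s : Fin k → ℕ) (T : ℕ), 1 ≤ T → (∀ i, T ≤ s i ∧ s i ≤ κ * T) → (∀ i, |(s i : ℝ) - v i| ≤ (v i : ℝ) ^ θ) →
          AllSplit Λ r S (C ^ T) s}.ncard : ℝ) ≤ (N : ℝ) ^ k * Real.exp (-(Real.log N ^ c))) ∧
    (LM Nat.totient ∧ LM (fun m => ∑ d ∈ m.divisors, d)) ∧
    (∀ (f : ℕ → ℕ) (b ρ : ℝ) (N m w : ℕ), ρ ≤ 1 → Real.exp (Real.log N ^ b) ≤ (w : ℝ) → w ∣ f m → Common f b ρ N m w) ∧
    ∀ (b ρ : ℝ) (N m : ℕ), ρ ≤ 1 → ∀ x : (ZMod m)ˣ, Real.exp (Real.log N ^ b) ≤ (orderOf x : ℝ) →
      Common Nat.totient b ρ N m (orderOf x) := by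
  refine ⟨fun {k} hk r S Λ hΛ hr hS κ C F hF θ ρ b c hθ hρ hk1 hb hc hcb => ?_, ⟨lm_totient, lm_sigma⟩,
    fun f b ρ N m w hρ hw hd => common_of_dvd hρ hw hd, fun b ρ N m hρ x hx => common_order hρ x hx⟩
  obtain ⟨hfew, -, hone⟩ := ManyVariables.result r S Λ hΛ hr hS
  obtain ⟨K, hK⟩ := hfew (2 * κ)
  obtain ⟨N₁, hN₁⟩ := hK ((max |C| 1) ^ 2)
  have hex : ∀ (N : ℕ) (H : ℝ), {s : Fin k → ℕ | (∀ j, N ≤ s j ∧ s j ≤ (2 * κ) * N) ∧ ¬ AllSplit Λ r S H s} ⊆
      exceptional Λ r S (2 * κ) N H := by
    rintro N H s ⟨hs1, hs2⟩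
    unfold AllSplit at hs2
    push Not at hs2
    obtain ⟨c, hP1, hP2, hP3, hP4⟩ := hs2
    refine ⟨hs1, c, hP1, hP2, hP3, fun hP => ?_⟩
    obtain ⟨h6, w, hw, hcw⟩ := hP4 hP
    exact hcw (hone h6 c hP w hw)
  have hfin : ∀ (N : ℕ) (H : ℝ), (exceptional Λ r S (2 * κ) N H).Finite := by
    intro N H
    refine (Set.Finite.pi (fun _ : Fin k => Set.finite_Iic (2 * κ * N))).subset ?_
    intro s hs j _
    exact (hs.1 j).2
  obtain ⟨N₀, hN₀⟩ := common_scales' hk κ (fun T s => ¬ AllSplit Λ r S (C ^ T) s)
    (fun N s => ¬ AllSplit Λ r S (((max |C| 1) ^ 2) ^ N) s)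
    (fun N T s h1 h2 h3 h4 => h3 (allSplit_mono Λ r S (pow_bound C h2.le) s h4))
    ⟨K, N₁, fun N hN => (Set.ncard_le_ncard (hex N _) (hfin N _)).trans (hN₁ N hN)⟩ hF hθ hρ hk1 hb hc hcb
  refine ⟨N₀, fun N hN => le_trans (le_of_eq ?_) (hN₀ N hN)⟩
  simp only [not_not]

end Pool.Agent.Results.MP_cbe134_nt.CommonFactors
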