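import Pool.Agent.U553.LY.H

/-!
# MP_cbe134_nt: no depth reduction at Lyndon words with large first letter, over arbitrary constants

The depth graded space in weight `k` and depth `r` consists of the multiple zeta values of depth `r` modulo those of smaller
depth. When can a value `ζ(w)` of depth `r` be expressed by values of smaller depth? If `w` is a product in the stuffle
algebra, or if the weight and the depth of `w` have different parity, there are such expressions. Here we treat indices whose
first letter is large, and Lyndon words `w`. Order the letters by `1 > 2 > 3 > ...`; a word is a Lyndon word if it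
is not empty and comes before each of its proper suffixes in the lexicographic order. For instance all words whose first
letter is larger than the other letters are Lyndon words. All words have at most `ℓ` letters in `[1, κ N]`, and the first letter
is at least `N`.

Constants are finitely many fixed algebraic numbers `α_i` and arbitrary complex numbers `x_1, ..., x_t`, which may depend
on `N`, for example `π ^ 2`, `ζ(3)` and other multiple zeta values. Relations are polynomial, of degree at most `D`, with integer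
coefficients of absolute value at most `C ^ N`.

(1) For all large `N`, uniformly in the `x_j`, there are at most `t` exceptional Lyndon words (in all depths together). If `w` is
not exceptional, then `ζ(w)` is not algebraic over the constants and any `m` multiple zeta values at arbitrary words
(Lyndon or not) of smaller depth, or of the same depth and before `w` in the lexicographic order: each relation between
these numbers and `ζ(w)` is trivial in `ζ(w)`, it holds for all complex numbers in place of `ζ(w)`. In particular `ζ(w)` is no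
polynomial in the constants and `m` values of smaller depth. For `t = 0` there is no exception. The number `t` is
optimal, since the `x_j` may be values at Lyndon words.

(2) All the bounds may grow with `N`.

So every depth reduction of `ζ(w)` for `t + 1` different Lyndon words `w` involves values whose first letter is smaller than `N`,
or more than `m` terms, or a coefficient larger than `C ^ N`, or more than `t` constants. For words which are not Lyndon words
this is false, by the stuffle product: `ζ(p, q) + ζ(q, p) = ζ(p) ζ(q) - ζ(p + q)`.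

Proof (`Pool.Agent.U553.LY`, `Pool.Agent.U553.DL`): the product of the factors of the Lyndon factorization of a word `u` is `u`,
with a positive coefficient, plus words before `u`; so every `ζ(u)` is algebraic over values at words before `u`, if `u` is no
Lyndon word, by relations from a finite list; the values at Lyndon words are algebraically independent over the
ring of germs of integer sequences of exponential growth (starting library: linear independence of multiple zeta values with
large first letters, by the subspace theorem). If `t + 1` Lyndon words were exceptional, the transcendence degree over the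
constants would be too small. The first letter belongs to the largest summation variable.
-/

set_option autoImplicit false

namespace Pool.Agent.Results.MP_cbe134_nt.DepthOverConstants

open Pool.Agent.U553.DL Pool.Agent.U553.LY

/-- `trunc [s_1, ..., s_r] m` is the sum of `∏ n_i ^ (-s_i)` over `m > n_1 > ... > n_r ≥ 1` -/
noncomputable def trunc : List ℕ → ℕ → ℝ
  | [], _ => 1
  | s :: l, m => ∑ j ∈ Finset.Ico 1 m, trunc l j / (j : ℝ) ^ s

/-- the multiple zeta value `ζ(s_1, ..., s_r)`, the sum of `∏ n_i ^ (-s_i)` over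
`n_1 > ... > n_r ≥ 1`; `ζ() = 1` -/
noncomputable def mzv : List ℕ → ℝ
  | [] => 1
  | s :: l => ∑' m : ℕ, trunc l (m + 1) / ((m + 1 : ℕ) : ℝ) ^ s

/-- Lyndon words for the order `1 > 2 > 3 > ...` of the letters: nonempty words which come before their proper suffixes -/
def IsLyndon (w : List ℕ) : Prop :=
  w ≠ [] ∧ ∀ u v : List ℕ, w = u ++ v → u ≠ [] → v ≠ [] → List.Lex (· > ·) w v

/-- nonempty, at most `ℓ` letters, all in `[1, κ N]`, and the first letter is at least `N` -/
def InRange (κ ℓ N : ℕ) (w : List ℕ) : Prop :=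
  w ≠ [] ∧ w.length ≤ ℓ ∧ (∀ m ∈ w, 1 ≤ m ∧ m ≤ κ * N) ∧ ∀ m ∈ w.head?, N ≤ m

/-- `k` has smaller depth than `w`, or the same depth and comes before `w` in the lexicographic order -/
def Before (k w : List ℕ) : Prop :=
  k.length < w.length ∨ (k.length = w.length ∧ List.Lex (· > ·) k w)

/-- There is a polynomial relation, of degree at most `D` and with integer coefficients of absolute value at most `H`, between
`ζ(w)`, the numbers `u_i` and the numbers `ζ(k)`, `k ∈ Λ`, which is not trivial in `ζ(w)`: it fails for some complex number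
`y` in place of `ζ(w)`. -/
def Algebraic {σ : Type} (u : σ → ℂ) (Λ : Finset (List ℕ)) (w : List ℕ) (D : ℕ) (H : ℝ) : Prop :=
  ∃ P : MvPolynomial (Option (σ ⊕ Λ)) ℤ, P.totalDegree ≤ D ∧ (∀ m, |((P.coeff m : ℤ) : ℝ)| ≤ H) ∧
    MvPolynomial.aeval (fun o => o.elim ((mzv w : ℝ) : ℂ) (Sum.elim u fun k : Λ => ((mzv k : ℝ) : ℂ))) P = 0 ∧
    ∃ y : ℂ, MvPolynomial.aeval (fun o => o.elim y (Sum.elim u fun k : Λ => ((mzv k : ℝ) : ℂ))) P ≠ 0

lemma trunc_eq : ∀ l m, trunc l m = Pool.Agent.Y760.ZG.hr l m := by
  intro l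
  induction l with
  | nil => intro m; rw [trunc, Pool.Agent.Y760.ZG.hr]
  | cons s l ih =>
    intro m
    rw [trunc, Pool.Agent.Y760.ZG.hr]
    exact Finset.sum_congr rfl fun j _ => by rw [ih]

lemma mzv_eq : ∀ l, mzv l = Pool.Agent.Y760.ZG.mz l := by
  intro l
  cases l with
  | nil => rw [mzv, Pool.Agent.Y760.ZG.mz]
  | cons s l =>
    rw [mzv, Pool.Agent.Y760.ZG.mz]
    exact tsum_congr fun k => by rw [trunc_eq]

lemma algebraic_iff {σ : Type} (u : σ → ℂ) (Λ : Finset (List ℕ)) (w : List ℕ) (D : ℕ) (H : ℝ) :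
    Algebraic u Λ w D H ↔ DepX u (fun w => ((Pool.Agent.Y760.ZG.mz w : ℝ) : ℂ)) Λ w D H := by
  unfold Algebraic DepX
  simp only [mzv_eq]

lemma T_of_before {k w : List ℕ} (h : Before k w) : T k w := by
  rcases h with h | ⟨h, h'⟩
  · exact Or.inl h
  · exact Or.inr ⟨h, S_of_lex h' h.symm.le⟩

/-- the main theorem -/
theorem main (m ℓ κ a t D : ℕ) (C : ℝ) (α : Fin a → ℂ) (hα : ∀ i, IsAlgebraic ℤ (α i)) :
    ∃ N₀ : ℕ, ∀ N : ℕ, N₀ ≤ N → ∀ x : Fin t → ℂ, ∃ T : Finset (List ℕ), T.card ≤ t ∧
      ∀ w, IsLyndon w → InRange κ ℓ N w → w ∉ T → ∀ Λ : Finset (List ℕ), Λ.card ≤ m →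
        (∀ k ∈ Λ, InRange κ ℓ N k ∧ Before k w) → ¬ Algebraic (Sum.elim α x) Λ w D (C ^ N) := by
  classical
  obtain ⟨N₀, h0⟩ := depthT m ℓ κ a t D C α hα
  refine ⟨N₀, fun N hN x => ?_⟩
  set U : Finset (List ℕ) := (finite_InR N (κ * N) ℓ).toFinset with hU
  set T : Finset (List ℕ) := U.filter fun w => ∃ Λ : Finset (List ℕ), Λ.card ≤ m ∧
    (∀ k ∈ Λ, InRange κ ℓ N k ∧ Before k w) ∧ Algebraic (Sum.elim α x) Λ w D (C ^ N) with hT
  have hmemU : ∀ w, w ∈ U ↔ Lyn w ∧ InR N (κ * N) ℓ w := by
    intro w
    rw [hU, Set.Finite.mem_toFinset]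
    exact Iff.rfl
  refine ⟨T, h0 N hN x T fun w hw => ?_, fun w hw hwR hwT Λ hΛ hΛk hA => hwT ?_⟩
  · obtain ⟨h1, Λ, h2, h3, h4⟩ := Finset.mem_filter.1 hw
    obtain ⟨h5, h6⟩ := (hmemU w).1 h1
    exact ⟨h5, h6, Λ, h2, fun k hk => ⟨(h3 k hk).1.1, (h3 k hk).1.2, T_of_before (h3 k hk).2⟩,
      (algebraic_iff _ _ _ _ _).1 h4⟩
  · exact Finset.mem_filter.2 ⟨(hmemU w).2 ⟨(Lyn_iff w).2 hw, hwR.2⟩, Λ, hΛ, hΛk, hA⟩

/-- **Theorem.** Constants are `a` fixed algebraic numbers `α_i` and `t` arbitrary complex numbers `x_j`. All statements are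
for large `N`, uniform in the `x_j`; all words are nonempty and have at most `ℓ` letters, which are in `[1, κ N]`, and the
first letter is at least `N`.
(1) There are at most `t` exceptional Lyndon words. If the Lyndon word `w` is not exceptional, then `ζ(w)` is not algebraic over
the constants and at most `m` multiple zeta values at words of smaller depth, or of the same depth and before `w`.
(2) All the bounds can be replaced by a function of `N` which tends to infinity. -/
theorem result :
    (∀ (m ℓ κ a t D : ℕ) (C : ℝ) (α : Fin a → ℂ), (∀ i, IsAlgebraic ℚ (α i)) → ∃ N₀ : ℕ, ∀ N : ℕ, N₀ ≤ N →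
      ∀ x : Fin t → ℂ, ∃ T : Finset (List ℕ), T.card ≤ t ∧
      ∀ w, IsLyndon w → InRange κ ℓ N w → w ∉ T → ∀ Λ : Finset (List ℕ), Λ.card ≤ m →
        (∀ k ∈ Λ, InRange κ ℓ N k ∧ Before k w) → ¬ Algebraic (Sum.elim α x) Λ w D (C ^ N)) ∧
    (∃ ω : ℕ → ℕ, Filter.Tendsto ω Filter.atTop Filter.atTop ∧ ∀ N t : ℕ, t ≤ ω N →
      ∀ x : Fin t → ℂ, ∃ T : Finset (List ℕ), T.card ≤ t ∧
      ∀ w, IsLyndon w → InRange (ω N) (ω N) N w → w ∉ T → ∀ Λ : Finset (List ℕ), Λ.card ≤ ω N →
        (∀ k ∈ Λ, InRange (ω N) (ω N) N k ∧ Before k w) → ¬ Algebraic x Λ w (ω N) ((ω N : ℝ) ^ N)) := by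
  classical
  have hZ : ∀ z : ℂ, IsAlgebraic ℚ z → IsAlgebraic ℤ z := fun z hz => by
    exact (IsFractionRing.isAlgebraic_iff ℤ ℚ ℂ).2 hz
  refine ⟨fun m ℓ κ a t D C α hα => main m ℓ κ a t D C α fun i => hZ _ (hα i), ?_⟩
  set p : ℕ → ℕ → Prop := fun m N => ∀ t : ℕ, t ≤ m → ∀ x : Fin t → ℂ, ∃ T : Finset (List ℕ), T.card ≤ t ∧
    ∀ w, IsLyndon w → InRange m m N w → w ∉ T → ∀ Λ : Finset (List ℕ), Λ.card ≤ m →
      (∀ k ∈ Λ, InRange m m N k ∧ Before k w) → ¬ Algebraic x Λ w m ((m : ℝ) ^ N) with hp
  have hp0 : ∀ N, p 0 N := by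
    intro N t _ x
    refine ⟨∅, by simp, fun w _ hw => ?_⟩
    exact absurd (List.length_eq_zero_iff.1 (Nat.le_zero.1 hw.2.1)) hw.1
  have hpm : ∀ m, ∃ N₀, ∀ N, N₀ ≤ N → p m N := by
    intro m
    choose N₀ h0 using fun t => main m m m 0 t m (m : ℝ) (fun i => i.elim0) (fun i => i.elim0)
    refine ⟨∑ t ∈ Finset.range (m + 1), N₀ t, fun N hN t ht x => ?_⟩
    have h2 : N₀ t ≤ N := (Finset.single_le_sum (f := N₀) (fun _ _ => Nat.zero_le _)
      (Finset.mem_range.2 (by omega))).trans hN
    obtain ⟨T, h3, h4⟩ := h0 t N h2 x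
    refine ⟨T, h3, fun w hw hwR hwT Λ hΛ hΛk hA => h4 w hw hwR hwT Λ hΛ hΛk ?_⟩
    obtain ⟨P, a1, a2, a3, y, a4⟩ := hA
    have hgi : Function.Injective (Option.map (Sum.map Sum.inr id) :
        Option (Fin t ⊕ Λ) → Option ((Fin 0 ⊕ Fin t) ⊕ Λ)) :=
      Option.map_injective (Sum.inr_injective.sumMap Function.injective_id)
    have hcomp : ∀ z : ℂ, (fun o : Option ((Fin 0 ⊕ Fin t) ⊕ Λ) => o.elim z (Sum.elim
        (Sum.elim (fun i : Fin 0 => (i.elim0 : ℂ)) x) fun k : Λ => ((mzv k : ℝ) : ℂ))) ∘
        (Option.map (Sum.map Sum.inr id)) = fun o : Option (Fin t ⊕ Λ) => o.elim z (Sum.elim x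
        fun k : Λ => ((mzv k : ℝ) : ℂ)) := by
      intro z
      funext o
      rcases o with _ | (o | o) <;> rfl
    refine ⟨MvPolynomial.rename (Option.map (Sum.map Sum.inr id)) P,
      (MvPolynomial.totalDegree_rename_le _ _).trans a1, height_rename _ hgi a2, ?_, y, ?_⟩
    · rw [MvPolynomial.aeval_rename, hcomp]
      exact a3
    · rw [MvPolynomial.aeval_rename, hcomp]
      exact a4
  refine ⟨fun N => Nat.findGreatest (fun m => p m N) N, ?_, fun N t ht x => ?_⟩
  · refine Filter.tendsto_atTop.2 fun m => ?_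
    obtain ⟨N₀, h2⟩ := hpm m
    refine Filter.eventually_atTop.2 ⟨max m N₀, fun N hN => ?_⟩
    exact Nat.le_findGreatest (le_of_max_le_left hN) (h2 N (le_of_max_le_right hN))
  · have h2 : p (Nat.findGreatest (fun m => p m N) N) N :=
      Nat.findGreatest_spec (P := fun m => p m N) (Nat.zero_le N) (hp0 N)
    exact h2 t ht x

end Pool.Agent.Results.MP_cbe134_nt.DepthOverConstants
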