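import Pool.Agent.U553.HY.Depth
import Pool.Agent.Results.MP_cbe134_nt.ManyVariables

/-!
# MP_cbe134_nt: relations in the depth graded space split off a bounded number of hyperplanes of arguments

A pattern in `k` variables is a list of letters `b + u_1 s_1 + ... + u_k s_k`; at a tuple `s` of natural numbers it gives an
index. The first letters may be constant, as in `ζ(5, 1, s_1, 3, s_1 + s_2)`. Let `Λ` be a finite set of admissible patterns
of the same weight and of depth at most `r`. We consider the relations `∑ c_w ζ(w(s)) = 0`, `w ∈ Λ`, with integers `c_w` of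
absolute value at most `C ^ N`, that is, the relations of exponential height between the classes of the values of depth `r` in
`Fil_r / Fil_{r - 1}` (where the values of smaller depth are from `Λ`), at the tuples `s` with `2 ≤ s_j ≤ κ N` such that in
each of the patterns the first letter which is not constant is at least `N`; the letters after it may be small.

1. The tuples at which the part of depth `r` of some relation of this kind does NOT split lie on at most `K` hyperplanes
`∑ b_j s_j = c` with integral coefficients `|b_j| ≤ K`, where `K` does not depend on `C` and `N`. Here a part splits if it is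
a combination of shuffles `u ⧢ v` of constant indices `u` (initial segments of the constant letters of patterns of depth `r`)
and patterns `v` whose first letter is not constant, such that for every `v` the combination of the `ζ(u)` is zero in the depth
graded space; so the relation comes from relations between constant values.

2. If the patterns of depth `r` in `Λ` have at most one constant letter in front, then off these hyperplanes there is no
relation of this height in depth `r`: `c_w = 0` for all `w` of depth `r`.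

`ManyVariables` of this page (helper665) bounds the number of the exceptional tuples in `[N, κ N] ^ k` by `K N ^ (k - 1)`; this
says nothing about families with fewer than `N ^ (k - 1)` tuples, and there all the variables have to be large. Proof:
`Pool.Agent.U553.HY` (elimination between tuples in general position, with `Pool.Agent.X90.DC` of the starting library).
-/

set_option autoImplicit false

namespace Pool.Agent.Results.MP_cbe134_nt.ExceptionalHyperplanes

open Pool.Agent.Results.MP_cbe134_nt.ManyVariables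
open Pool.Agent.U553.HY (LargeFirst OnHyperplanes)

/-- The tuples `s` with `2 ≤ s_j ≤ κ N` for all `j`, for which in each of the patterns in `Λ` the first letter which is not
constant is at least `N`. -/
def Tuples {k : ℕ} (Λ : Finset (List (Letter k))) (κ N : ℕ) : Set (Fin k → ℕ) :=
  {s | (∀ j, 2 ≤ s j ∧ s j ≤ κ * N) ∧ ∀ w ∈ Λ, LargeFirst N s w}

/-- at the tuple `s` there is a relation `∑ c_w ζ(w(s)) = 0`, `w ∈ Λ`, with integers `c_w` of absolute value at most `H`,
whose part of depth `r` does not split -/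
def HasUnsplit {k : ℕ} (Λ : Finset (List (Letter k))) (r : ℕ) (S : Letter k) (H : ℝ) (s : Fin k → ℕ) : Prop :=
  ∃ c : List (Letter k) → ℤ, (∀ w, w ∉ Λ → c w = 0) ∧ (∀ w ∈ Λ, |(c w : ℝ)| ≤ H) ∧
    ∑ w ∈ Λ, (c w : ℝ) * mzv (index s w) = 0 ∧ ¬ Splits Λ r S c

/-- at the tuple `s` there is a relation `∑ c_w ζ(w(s)) = 0`, `w ∈ Λ`, with integers `c_w` of absolute value at most `H`,
such that `c_w ≠ 0` for some `w` of depth `r` -/
def HasRelation {k : ℕ} (Λ : Finset (List (Letter k))) (r : ℕ) (H : ℝ) (s : Fin k → ℕ) : Prop :=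
  ∃ c : List (Letter k) → ℤ, (∀ w ∈ Λ, |(c w : ℝ)| ≤ H) ∧
    ∑ w ∈ Λ, (c w : ℝ) * mzv (index s w) = 0 ∧ ∃ w ∈ Λ, w.length = r ∧ c w ≠ 0

theorem part1 {k : ℕ} (r : ℕ) (S : Letter k) (Λ : Finset (List (Letter k))) (hΛ : ∀ w ∈ Λ, AdmissiblePattern w)
    (hr : ∀ w ∈ Λ, w.length ≤ r) (hS : ∀ w ∈ Λ, w.sum = S) (κ : ℕ) : ∃ K : ℕ, ∀ C : ℝ, ∃ N₀ : ℕ, ∀ N : ℕ, N₀ ≤ N →
      OnHyperplanes K {s : Fin k → ℕ | s ∈ Tuples Λ κ N ∧ HasUnsplit Λ r S (C ^ N) s} := by
  classical
  obtain ⟨K, hK⟩ := Pool.Agent.U553.HY.leadH r S Λ hΛ hr hS κ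
  refine ⟨K, fun C => ?_⟩
  obtain ⟨N₀, hN₀⟩ := hK C
  refine ⟨N₀, fun N hN => (hN₀ N hN).mono ?_⟩
  rintro s ⟨⟨h1, h2⟩, c, h3, h4, h5, h6⟩
  rw [mzv_eq] at h5
  exact ⟨h1, h2, c, h3, h4, h5, fun h => h6 ((splits_iff Λ r S c).2 h)⟩

theorem part2 {k : ℕ} (r : ℕ) (S : Letter k) (Λ : Finset (List (Letter k)))
    (h1 : ∀ w ∈ Λ, w.length = r → (constantPart w).length ≤ 1) (H : ℝ) (s : Fin k → ℕ)
    (h : HasRelation Λ r H s) : HasUnsplit Λ r S H s := by
  classical
  obtain ⟨c, h3, h4, w, hw, hwr, hcw⟩ := h
  refine ⟨fun w => if w ∈ Λ then c w else 0, fun w hw => if_neg hw, fun w hw => ?_, ?_, fun hsp => hcw ?_⟩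
  · simp only [if_pos hw]
    exact h3 w hw
  · rw [← h4]
    refine Finset.sum_congr rfl fun w hw => ?_
    simp only [if_pos hw]
  · have h5 := Pool.Agent.N665.LP.one r S Λ (fun w hw hwr => by rw [← constantPart_eq]; exact h1 w hw hwr) _
      ((splits_iff Λ r S _).1 hsp) w hwr
    simpa only [if_pos hw] using h5

/-- **Theorem.** Let `Λ` be a finite set of admissible patterns in `k` variables of the same weight `S` and of depth at most
`r`, and let `κ` be a natural number.

1. There is `K` such that for all real `C` and all large `N` the following tuples `s` lie on at most `K` hyperplanes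
`∑ b_j s_j = c` with integers `c` and `b_j`, not all zero, `|b_j| ≤ K`: the tuples with `2 ≤ s_j ≤ κ N`, for which in each of the
patterns the first letter which is not constant is at least `N`, and for which the part of depth `r` of some relation
`∑ c_w ζ(w(s)) = 0`, `w ∈ Λ`, with integers `|c_w| ≤ C ^ N` does not split.

2. If the patterns of depth `r` in `Λ` have at most one constant letter in front, the same holds for the tuples for which there
is a relation `∑ c_w ζ(w(s)) = 0`, `w ∈ Λ`, with integers `|c_w| ≤ C ^ N` such that `c_w ≠ 0` for some `w` of depth `r`. -/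
theorem result {k : ℕ} (r : ℕ) (S : Letter k) (Λ : Finset (List (Letter k))) (hΛ : ∀ w ∈ Λ, AdmissiblePattern w)
    (hr : ∀ w ∈ Λ, w.length ≤ r) (hS : ∀ w ∈ Λ, w.sum = S) (κ : ℕ) :
    (∃ K : ℕ, ∀ C : ℝ, ∃ N₀ : ℕ, ∀ N : ℕ, N₀ ≤ N →
      OnHyperplanes K {s : Fin k → ℕ | s ∈ Tuples Λ κ N ∧ HasUnsplit Λ r S (C ^ N) s}) ∧
    ((∀ w ∈ Λ, w.length = r → (constantPart w).length ≤ 1) → ∃ K : ℕ, ∀ C : ℝ, ∃ N₀ : ℕ, ∀ N : ℕ, N₀ ≤ N →
      OnHyperplanes K {s : Fin k → ℕ | s ∈ Tuples Λ κ N ∧ HasRelation Λ r (C ^ N) s}) := by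
  refine ⟨part1 r S Λ hΛ hr hS κ, fun h1 => ?_⟩
  obtain ⟨K, hK⟩ := part1 r S Λ hΛ hr hS κ
  refine ⟨K, fun C => ?_⟩
  obtain ⟨N₀, hN₀⟩ := hK |C|
  refine ⟨N₀, fun N hN => (hN₀ N hN).mono ?_⟩
  rintro s ⟨hs, h⟩
  refine ⟨hs, part2 r S Λ h1 _ s ?_⟩
  obtain ⟨c, h3, h4⟩ := h
  exact ⟨c, fun w hw => (h3 w hw).trans ((le_abs_self _).trans (abs_pow _ _).le), h4⟩

end Pool.Agent.Results.MP_cbe134_nt.ExceptionalHyperplanes
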