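import Pool.Agent.U449.BV.MZ
import Pool.Agent.Results.MP_cbe134_nt.ManyVariables

/-!
# The depth graded space of multiple zeta values at arguments near polynomials on arbitrary sets

For the patterns see the starting file `ManyVariables`: a pattern in `k` variables is a list of letters `b + u_1 s_1 + ... + u_k s_k`, and the first
letters may be constant; at a tuple `s` of natural numbers it gives an index.

Let `C` be a real number and `D`, `l` natural numbers, `κ ≥ 0` and `k - 1 + k κ < δ ≤ k`. Let `p` be a large prime, `f(x, y)` ANY polynomial of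
bounded degree over the field of `p ^ k` elements with a monomial which contains both variables (for example `f = x y`), let `A`, `B`
be ARBITRARY subsets of this field with at least `p ^ δ` elements, and `g`, `h` ARBITRARY functions. For all the pairs `(a, b)` in
`A × B`, apart from a proportion of at most `p ^ (-ρ)`, the following holds for ALL tuples `s` of natural numbers in a cone
`T ≤ s_i ≤ l T` at a distance of at most `p ^ κ` from the tuple of the least residues of the `k` coordinates of
`f(a, b) + g(a) + h(b)`: let `Λ` be a finite set of admissible patterns of the same weight and of depth at most `r`. The part of depth `r` of EVERY relation `∑ c_w ζ(w(s)) = 0`, `w ∈ Λ`, with integers `c_w` of absolute value at most `C ^ T` is a combination of shuffles of constant indices and patterns whose first letter is not constant which comes from relations between constant values (`Splits`); and `c_w = 0` for all `w` of depth `r` if the patterns of depth `r` have at most one constant letter in front. More generally, this holds for the values `F(a, b)` of all vector functions of two variables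 with few
coincidences (`RareV`), on arbitrary finite sets. (Some tuples near the values are in no cone; for them nothing is stated.)

The starting file bounds the number of the exceptional tuples in `[N, l N] ^ k` by `K N ^ (k - 1)`, `N` large.

Since the sets and the functions `g` and `h` are arbitrary, the tuples have no arithmetic structure, and a tuple may be
taken by very many pairs. So the number of the exceptions (starting library) does not give the result directly. Proof: the
inequality of Cauchy and Schwarz; for most pairs `a, a'` the difference `F(a, b) - F(a', b)` is small for few `b`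
(`Pool.Agent.U449.BV`).
-/

set_option autoImplicit false

namespace Pool.Agent.Results.MP_cbe134_nt.MixedPolynomials

open Finset
open Pool.Agent.U449.BV (RareV OnProductsV on_products_cone coordinates)
open Pool.Agent.Results.MP_cbe134_nt.ManyVariables (mzv Letter index AdmissiblePattern Splits exceptional constantPart)

/-- Every relation between the multiple zeta values of the patterns `w ∈ Λ` at the tuple `s` with integers `c_w` of absolute
value at most `H` splits; and `c_w = 0` for all `w` of depth `r` if the patterns of depth `r` have at most one constant letter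
in front. -/
def AllSplit {k : ℕ} (Λ : Finset (List (Letter k))) (r : ℕ) (S : Letter k) (H : ℝ) (s : Fin k → ℕ) : Prop :=
  ∀ c : List (Letter k) → ℤ, (∀ w, w ∉ Λ → c w = 0) → (∀ w ∈ Λ, |(c w : ℝ)| ≤ H) →
    ∑ w ∈ Λ, (c w : ℝ) * mzv (index s w) = 0 → Splits Λ r S c ∧
      ((∀ w ∈ Λ, w.length = r → (constantPart w).length ≤ 1) → ∀ w, w.length = r → c w = 0)

/-- For ALL tuples `s` of natural numbers with `|s_i - x_i| ≤ W` for all `i` and all `T ≥ 1` with `T ≤ s_i ≤ l T` for all `i`: `G (C ^ T) s`. -/
def Near {k : ℕ} (G : ℝ → (Fin k → ℕ) → Prop) (C : ℝ) (l : ℕ) (W : ℝ) (x : Fin k → ℝ) : Prop :=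
  ∀ (s : Fin k → ℕ) (T : ℕ), 1 ≤ T → (∀ i, T ≤ s i ∧ s i ≤ l * T) → (∀ i, |(s i : ℝ) - x i| ≤ W) → G (C ^ T) s

lemma pow_bound (C : ℝ) (T : ℕ) : C ^ T ≤ (max |C| 1) ^ T := by
  calc C ^ T ≤ |C ^ T| := le_abs_self _
    _ = |C| ^ T := abs_pow C T
    _ ≤ (max |C| 1) ^ T := pow_le_pow_left₀ (abs_nonneg C) (le_max_left _ _) T

/-- a relation that does not split -/
def Exc {k : ℕ} (Λ : Finset (List (Letter k))) (r : ℕ) (S : Letter k) (H : ℝ) (s : Fin k → ℕ) : Prop :=
  ∃ c : List (Letter k) → ℤ, (∀ w, w ∉ Λ → c w = 0) ∧
    (∀ w ∈ Λ, |(c w : ℝ)| ≤ H) ∧ ∑ w ∈ Λ, (c w : ℝ) * mzv (index s w) = 0 ∧ ¬ Splits Λ r S c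

lemma exc_mono {k : ℕ} (Λ : Finset (List (Letter k))) (r : ℕ) (S : Letter k) {H H' : ℝ} (h : H ≤ H') (s : Fin k → ℕ)
    (hs : Exc Λ r S H s) : Exc Λ r S H' s := by
  obtain ⟨c, h1, h2, h3⟩ := hs
  exact ⟨c, h1, fun w hw => (h2 w hw).trans h, h3⟩

/-- **Theorem.** Let `Λ` be a finite set of admissible patterns in `k ≥ 1` variables of the same weight `S` and of depth at most `r`, `l` a
natural number, `C` a real number and `κ ≥ 0`. The property `Near`, that is in all cones `T ≤ s_i ≤ l T` the relations with coefficients
at most `C ^ T` split (`AllSplit`), with windows of length `X ^ κ`, holds for almost all values of vector functions of two variables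
with few coincidences, on arbitrary finite sets of at least `X ^ δ` elements, `k - 1 + k κ < δ ≤ k` (`OnProductsV`).
The tuples of the least residues modulo `p` of the coordinates (with respect to a basis over the field of `p` elements) of
`f(a, b) + g(a) + h(b)` in a field of `p ^ k` elements are such a function, with `X = p`, for all polynomials `f` over this
field with a monomial which contains both variables, arbitrary functions `g` and `h`, and arbitrary finite subsets. -/
theorem result :
    (∀ (k : ℕ), 1 ≤ k → ∀ (r : ℕ) (S : Letter k) (Λ : Finset (List (Letter k))), (∀ w ∈ Λ, AdmissiblePattern w) →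
      (∀ w ∈ Λ, w.length ≤ r) → (∀ w ∈ Λ, w.sum = S) → ∀ (l : ℕ) (C κ : ℝ), 0 ≤ κ →
      OnProductsV k ((k : ℝ) - 1 + k * κ) κ (Near (AllSplit Λ r S) C l)) ∧
    ∀ (p : ℕ) [Fact p.Prime] (k : ℕ) (K : Type) [Field K] [Algebra (ZMod p) K] (e : Module.Basis (Fin k) (ZMod p) K)
      (d : ℕ) (f : MvPolynomial (Fin 2) K), f.totalDegree ≤ d → (∃ m ∈ f.support, m 0 ≠ 0 ∧ m 1 ≠ 0) →
      ∀ (g h : K → K) (A B : Finset K),
        RareV d A B (fun a b i => (((e.repr (MvPolynomial.eval ![a, b] f + g a + h b) i).val : ℕ) : ℝ)) := by
  refine ⟨fun k hk r S Λ hΛ hr hS l C κ hκ => ?_, coordinates⟩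
  obtain ⟨h1, -, h3⟩ := ManyVariables.result r S Λ hΛ hr hS
  refine (on_products_cone hk (fun H s => Exc Λ r S H s) (fun H H' s hH h => exc_mono Λ r S hH s h)
    (fun l' => h1 l') (max |C| 1) (le_max_right _ _) l hκ).mono
    (fun W v _ h' s T hT hs hsv c hc1 hc2 hc3 => ?_)
  have h4 : Splits Λ r S c := by
    by_contra h5
    exact h' s T hT hs hsv (exc_mono Λ r S (pow_bound C T) s ⟨c, hc1, hc2, hc3, h5⟩)
  exact ⟨h4, fun h5 => h3 h5 c h4⟩

end Pool.Agent.Results.MP_cbe134_nt.MixedPolynomials
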